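import Pool.Agent.H37F.Fan
import Pool.Agent.H40C.Core
import Pool.Agent.H62P.Pkg

/-!
# GAM and the core of the 2-connected step

`c` is a longest cycle of the 2-connected graph `G`, `D` the core of a component of `G - c`.
-/

set_option autoImplicit false

namespace Pool.Agent.H37F

open List Pool.Agent.TF82 Pool.Agent.TFC Pool.Agent.TFB Pool.Agent.TFN Pool.Agent.EG31
  Pool.Agent.H18C Pool.Agent.H62P

universe u

set_option linter.unusedSectionVars false
set_option linter.unusedVariables false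

variable {V : Type u} [DecidableEq V]

theorem Pth.mono {G : SimpleGraph V} {H : Finset V} {a b : V} {n m : ℕ} (h : Pth G H a b n)
    (hm : m ≤ n) : Pth G H a b m := by
  obtain ⟨q, h1, h2, h3, h4⟩ := h
  exact ⟨q, h1, h2, h3, hm.trans h4⟩

theorem Pth.sub {G : SimpleGraph V} {H H' : Finset V} {a b : V} {n : ℕ} (h : Pth G H a b n)
    (hH : H ⊆ H') : Pth G H' a b n := by
  obtain ⟨q, h1, h2, h3, h4⟩ := h
  exact ⟨q, h1, h2, fun z hz => hH (h3 z hz), h4⟩

theorem isMax_fam {G : SimpleGraph V} {c : List V} (hM : IsMax G 1 [c]) : CycL G c :=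
  hM.fam.cyc c (by simp)

theorem isMax_len {G : SimpleGraph V} {c : List V} (hM : IsMax G 1 [c]) {c' : List V}
    (hc' : CycL G c') : c'.length ≤ c.length := by
  have h := hM.max [c'] ⟨fun d hd => by
    rw [List.mem_singleton] at hd
    rw [hd]
    exact hc', by simpa using hc'.1⟩ (by simp)
  simpa using h

/-- the longest cycle is long when a component has a core -/
theorem gam_long [Fintype V] {G : SimpleGraph V} {c : List V} (hM : IsMax G 1 [c])
    (h2 : Conn2 G Finset.univ) {D : Finset V} (hD : D ⊆ unc [c]) (hD2 : 2 ≤ D.card) {n : ℕ}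
    (hn : ∀ x ∈ D, ∀ x' ∈ D, x ≠ x' → Pth G D x x' n) : 2 * n + 2 ≤ c.length := by
  have hc := isMax_fam hM
  refine Pool.Agent.H40C.core_long (D := D) h2 hc (fun w _ => Finset.mem_univ w)
    (fun c' hc' _ => isMax_len hM hc') (Finset.subset_univ D) ?_ hD2 hn
  intro w hw hwc
  have := mem_unc.1 (hD hw)
  simp at this
  exact this hwc

/-- long paths between any two vertices -/
theorem gam_pth [Fintype V] {G : SimpleGraph V} {c : List V} (hc : CycL G c)
    (h2 : Conn2 G Finset.univ) {n : ℕ} (hn : 2 * n + 2 ≤ c.length) {x y : V} (hxy : x ≠ y) :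
    Pth G Finset.univ x y (n + 2) := by
  obtain ⟨Q, h1, h3, h4, h5⟩ := long_arc h2 hc (fun w _ => Finset.mem_univ w)
    (Finset.mem_univ x) (Finset.mem_univ y) hxy
  exact ⟨Q, h1, h3, h4, by omega⟩

/-- **GAM and core of the 2-connected step.** `K` is a component of `G - c` (or any set outside
`c`) with a package `(b', f')`, and `f + b ≤ f' + b' + 1`. -/
theorem gam_step [Fintype V] {G : SimpleGraph V} [DecidableRel G.Adj] {c : List V}
    (hM : IsMax G 1 [c]) (h2 : Conn2 G Finset.univ) {K S' I' : Finset V} {b f b' f' : ℕ}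
    (hK : K ⊆ unc [c]) (hP : Pkg G K S' b' f' I') (hk : f + b ≤ f' + b' + 1) :
    2 * (f + b) + 2 ≤ c.length ∧ ∀ x y : V, x ≠ y → Pth G Finset.univ x y (f + b + 2) := by
  obtain ⟨D, hD, hD2, hn⟩ := hP.co
  have h1 : 2 * (f + b) + 2 ≤ c.length :=
    gam_long hM h2 (hD.trans hK) hD2
      (fun x hx x' hx' hne => Pth.mono (hn x hx x' hx' hne) (by omega))
  exact ⟨h1, fun x y hxy => gam_pth (isMax_fam hM) h2 h1 hxy⟩

/-- the field `co` of the package from GAM, with `D = univ` -/
theorem co_of_gam [Fintype V] {G : SimpleGraph V} (S : Finset V) {b f : ℕ}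
    (hV : 2 ≤ Fintype.card V)
    (h : ∀ x y : V, x ≠ y → Pth G Finset.univ x y (f + b + 2)) :
    ∃ D ⊆ (Finset.univ : Finset V), 2 ≤ D.card ∧ ∀ x ∈ D, ∀ x' ∈ D, x ≠ x' →
      Pth G D x x' (f + b + 1 + min 1 S.card) :=
  ⟨Finset.univ, Finset.Subset.refl _, by simpa using hV, fun x _ x' _ hne =>
    Pth.mono (h x x' hne) (by omega)⟩

/-- the field `co` of the package of the 2-connected step -/
theorem co_step [Fintype V] {G : SimpleGraph V} [DecidableRel G.Adj] {c : List V}
    (hM : IsMax G 1 [c]) (h2 : Conn2 G Finset.univ) (S : Finset V) {K S' I' : Finset V}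
    {b f b' f' : ℕ} (hK : K ⊆ unc [c]) (hP : Pkg G K S' b' f' I')
    (hk : f + b ≤ f' + b' + 1) :
    ∃ D ⊆ (Finset.univ : Finset V), 2 ≤ D.card ∧ ∀ x ∈ D, ∀ x' ∈ D, x ≠ x' →
      Pth G D x x' (f + b + 1 + min 1 S.card) := by
  refine co_of_gam S ?_ (gam_step hM h2 hK hP hk).2
  have hc := isMax_fam hM
  have h1 : c.toFinset.card ≤ (Finset.univ : Finset V).card :=
    Finset.card_le_card (Finset.subset_univ _)
  rw [List.toFinset_card_of_nodup hc.1, Finset.card_univ] at h1
  have := hc.2.1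
  omega

end Pool.Agent.H37F
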