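import Pool.Agent.H37F.M1
import Pool.Agent.H6T.Lab

/-!
# M1 in the words of `H6T.Lab`: the components with the set `Sp` optional
-/

set_option autoImplicit false

namespace Pool.Agent.H37F

open List Pool.Agent.TF82 Pool.Agent.TFC Pool.Agent.TFB Pool.Agent.EG31
  Pool.Agent.H18C Pool.Agent.H62P

universe u

set_option linter.unusedSectionVars false
set_option linter.unusedVariables false

variable {V : Type u} [DecidableEq V]

theorem pend_XX [Fintype V] {G : SimpleGraph V} {W : Finset V} {F : List (List V)} {y : V} :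
    ∀ x ∈ Pool.Agent.H6T.Lab.XX G W F (comp G F y), Pend G F y x := by
  intro x hx
  obtain ⟨h1, _, _, u, h4, h5, h6⟩ := Pool.Agent.H6T.Lab.mem_XX.1 hx
  exact ⟨u, mem_att.2 ⟨h4, x, (mem_comp.1 h1).2, h5⟩, h5, fun z hz hadj => h6 z hz hadj⟩

theorem XX_sub {G : SimpleGraph V} {W : Finset V} {F : List (List V)} {Z : Finset V} :
    Pool.Agent.H6T.Lab.XX G W F Z ⊆ Z := fun _ hx => (Pool.Agent.H6T.Lab.mem_XX.1 hx).1

/-- the component with `Sp` optional is in the class with surplus `0` -/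
theorem kb_Sp [Fintype V] {G : SimpleGraph V} [DecidableRel G.Adj] {W : Finset V}
    (hC : CW G Finset.univ W) {j : ℕ} {F : List (List V)} (hM : IsMax G j F) {y : V}
    (hy : y ∈ unc F) (hne : (comp G F y \ W).Nonempty) :
    Kb G (comp G F y) (Pool.Agent.H6T.Lab.Sp G W F (comp G F y)) 0 :=
  kb_comp hC hM hy XX_sub pend_XX hne

theorem minCov_Sp [Fintype V] {G : SimpleGraph V} [DecidableRel G.Adj] {W : Finset V}
    (hC : CW G Finset.univ W) {j : ℕ} {F : List (List V)} (hM : IsMax G j F) {y : V}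
    (hy : y ∈ unc F) (f : ℕ) :
    MinCov G (comp G F y) (Pool.Agent.H6T.Lab.Sp G W F (comp G F y)) f ↔
      MinCov G (comp G F y) (W ∩ comp G F y) f :=
  minCov_comp_iff hC hM hy XX_sub pend_XX f

theorem cov_Sp [Fintype V] {G : SimpleGraph V} [DecidableRel G.Adj] {W : Finset V}
    (hC : CW G Finset.univ W) {j : ℕ} {F : List (List V)} (hM : IsMax G j F) {y : V}
    (hy : y ∈ unc F) (k : ℕ) :
    CovW G (comp G F y) (Pool.Agent.H6T.Lab.Sp G W F (comp G F y)) k ↔
      CovW G (comp G F y) (W ∩ comp G F y) k :=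
  cov_comp_iff hC hM hy XX_sub pend_XX k

end Pool.Agent.H37F
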