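import Pool.Agent.EG31.Gallai

/-!
# Two disjoint paths to a set in a 2-connected graph, and the long arc of a cycle
-/

set_option autoImplicit false

namespace Pool.Agent.H37F

open List Pool.Agent.TF82 Pool.Agent.TFC Pool.Agent.TFB Pool.Agent.TFN Pool.Agent.EG31

universe u

set_option linter.unusedSectionVars false
set_option linter.unusedVariables false

variable {V : Type u} [DecidableEq V]

/-- two paths with a common end vertex -/
theorem seg_join {G : SimpleGraph V} {X B : List V} {a r b : V} (hX : Seg G X a r)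
    (hB : Seg G (r :: B) r b) : Seg G (X ++ B) a b := by
  rcases B with _ | ⟨c, B⟩
  · have h := hB.lt
    simp at h
    subst h
    simpa using hX
  · refine hX.append (Y := c :: B) ⟨(List.isChain_cons.1 hB.ch).2, rfl, ?_⟩
      ((List.isChain_cons.1 hB.ch).1 c rfl)
    have h := hB.lt
    simpa using h

theorem seg_single (G : SimpleGraph V) (a : V) : Seg G [a] a a := ⟨by simp, rfl, rfl⟩

/-- the part of a path after one of its vertices, and the part before it -/
theorem seg_split {G : SimpleGraph V} {S : List V} {a b r : V} (hS : Seg G S a b) (hr : r ∈ S) :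
    ∃ A B, S = A ++ r :: B ∧ Seg G (A ++ [r]) a r ∧ Seg G (r :: B) r b := by
  obtain ⟨A, B, rfl⟩ := List.append_of_mem hr
  refine ⟨A, B, rfl, ⟨?_, ?_, by simp⟩, ⟨?_, rfl, ?_⟩⟩
  · have h := hS.ch
    have e : A ++ r :: B = (A ++ [r]) ++ B := by simp
    rw [e] at h
    exact (List.isChain_append.1 h).1
  · have h := hS.hd
    rcases A with _ | ⟨c, A⟩
    · simpa using h
    · simpa using h
  · exact (List.isChain_append.1 hS.ch).2.1
  · have h := hS.lt
    rw [List.getLast?_append] at h
    rcases hB : (r :: B).getLast? with _ | z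
    · simp at hB
    · simpa [hB] using h

/-- the first vertex of a path with the property `D` -/
theorem first_hit {G : SimpleGraph V} (D : V → Prop) : ∀ (S : List V) (a b : V), Seg G S a b →
    D b → ∃ (S' : List V) (r : V), Seg G S' a r ∧ S' <+: S ∧ D r ∧ ∀ z ∈ S', D z → z = r := by
  intro S
  induction S with
  | nil =>
    intro a b hS
    have := hS.hd
    simp at this
  | cons s S ih =>
    intro a b hS hb
    have hsa : s = a := by
      have := hS.hd
      simpa using this
    subst hsa
    by_cases hs : D s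
    · refine ⟨[s], s, seg_single G s, ?_, hs, ?_⟩
      · exact ⟨S, rfl⟩
      · intro z hz _
        simpa using hz
    · rcases S with _ | ⟨c, S⟩
      · have h := hS.lt
        simp at h
        subst h
        exact absurd hb hs
      · have hadj : G.Adj s c := (List.isChain_cons.1 hS.ch).1 c rfl
        have hS1 : Seg G (c :: S) c b := by
          refine ⟨(List.isChain_cons.1 hS.ch).2, rfl, ?_⟩
          have h := hS.lt
          simpa using h
        obtain ⟨S', r, h1, h2, h3, h4⟩ := ih c b hS1 hb
        refine ⟨s :: S', r, ?_, ?_, h3, ?_⟩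
        · exact (seg_single G s).append h1 hadj
        · obtain ⟨t, ht⟩ := h2
          exact ⟨t, by rw [List.cons_append, ht]⟩
        · intro z hz hz2
          rcases List.mem_cons.1 hz with rfl | hz
          · exact absurd hz2 hs
          · exact h4 z hz hz2

/-- two disjoint paths from `x` and `x'` to `D` -/
def Fan (G : SimpleGraph V) (H D : Finset V) (x x' : V) : Prop :=
  ∃ (P Q : List V) (u u' : V), Seg G P x u ∧ Seg G Q x' u' ∧ (P ++ Q).Nodup ∧
    (∀ z ∈ P, z ∈ H) ∧ (∀ z ∈ Q, z ∈ H) ∧ u ∈ D ∧ u' ∈ D ∧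
    (∀ z ∈ P, z ∈ D → z = u) ∧ (∀ z ∈ Q, z ∈ D → z = u')

theorem fan_base {G : SimpleGraph V} {H D : Finset V} (h2 : Conn2 G H) (hD : D ⊆ H)
    (hc : 2 ≤ D.card) {x x' : V} (hx' : x' ∈ H) (hne : x ≠ x') (hx : x ∈ D) : Fan G H D x x' := by
  obtain ⟨d, hd, hdx⟩ := Finset.exists_mem_ne (by omega : 1 < D.card) x
  have hr := h2 x (hD hx) x' (Finset.mem_erase.2 ⟨hne.symm, hx'⟩) d
    (Finset.mem_erase.2 ⟨hdx, hD hd⟩)
  obtain ⟨S, s1, s2, s3, s4, s5⟩ := hr.path (Finset.mem_erase.2 ⟨hne.symm, hx'⟩)
  obtain ⟨S', r, h1, h3, h4, h5⟩ := first_hit (G := G) (fun z => z ∈ D) S x' d ⟨s2, s3, s4⟩ hd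
  have hS' : ∀ z ∈ S', z ∈ H.erase x := fun z hz => s5 z (h3.subset hz)
  refine ⟨[x], S', x, r, seg_single G x, h1, ?_, ?_, ?_, hx, h4, ?_, h5⟩
  · rw [List.nodup_append]
    refine ⟨by simp, s1.sublist h3.sublist, ?_⟩
    intro a ha b hb hab
    simp at ha
    subst ha
    subst hab
    exact (Finset.mem_erase.1 (hS' _ hb)).1 rfl
  · intro z hz
    simp at hz
    subst hz
    exact hD hx
  · intro z hz
    exact (Finset.mem_erase.1 (hS' z hz)).2
  · intro z hz _
    simpa using hz

theorem fan_aux {G : SimpleGraph V} {H D : Finset V} (h2 : Conn2 G H) (hD : D ⊆ H)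
    (hc : 2 ≤ D.card) {x' : V} (hx' : x' ∈ H) : ∀ (R : List V) (x d : V), Seg G R x d → d ∈ D →
    (∀ z ∈ R, z ∈ H.erase x') → Fan G H D x x' := by
  intro R
  induction R with
  | nil =>
    intro x d hR
    have := hR.hd
    simp at this
  | cons s R ih =>
    intro x d hR hd hRH
    have hsx : s = x := by
      have := hR.hd
      simpa using this
    subst hsx
    have hsH : s ∈ H.erase x' := hRH s (by simp)
    have hsne : s ≠ x' := (Finset.mem_erase.1 hsH).1
    have hsH' : s ∈ H := (Finset.mem_erase.1 hsH).2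
    by_cases hsD : s ∈ D
    · exact fan_base h2 hD hc hx' hsne hsD
    rcases R with _ | ⟨c, R⟩
    · have h := hR.lt
      simp at h
      subst h
      exact absurd hd hsD
    have hadj : G.Adj s c := (List.isChain_cons.1 hR.ch).1 c rfl
    have hR1 : Seg G (c :: R) c d := by
      refine ⟨(List.isChain_cons.1 hR.ch).2, rfl, ?_⟩
      have h := hR.lt
      simpa using h
    obtain ⟨P, Q, u, u', hP, hQ, hn, hPH, hQH, hu, hu', hPD, hQD⟩ :=
      ih c d hR1 hd (fun z hz => hRH z (by simp only [List.mem_cons] at hz ⊢; tauto))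
    have hn' := List.nodup_append.1 hn
    have hdis : ∀ z, z ∈ P → z ∈ Q → False := fun z h1 h2 => hn'.2.2 z h1 z h2 rfl
    by_cases hsP : s ∈ P
    · obtain ⟨A, B, hAB, -, hB⟩ := seg_split hP hsP
      have hsub : ∀ z ∈ s :: B, z ∈ P := fun z hz => by rw [hAB]; exact List.mem_append_right _ hz
      refine ⟨s :: B, Q, u, u', hB, hQ, ?_, fun z hz => hPH z (hsub z hz), hQH, hu, hu',
        fun z hz => hPD z (hsub z hz), hQD⟩
      rw [List.nodup_append]
      refine ⟨?_, hn'.2.1, ?_⟩
      · have := hn'.1
        rw [hAB] at this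
        exact (List.nodup_append.1 this).2.1
      · intro a ha b hb hab
        exact hn'.2.2 a (hsub a ha) b hb hab
    by_cases hsQ : s ∈ Q
    swap
    · refine ⟨s :: P, Q, u, u', (seg_single G s).append hP hadj, hQ, ?_, ?_, hQH, hu, hu', ?_, hQD⟩
      · rw [List.cons_append, List.nodup_cons]
        refine ⟨?_, hn⟩
        rw [List.mem_append]
        tauto
      · intro z hz
        rcases List.mem_cons.1 hz with rfl | hz
        · exact hsH'
        · exact hPH z hz
      · intro z hz hzD
        rcases List.mem_cons.1 hz with rfl | hz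
        · exact absurd hzD hsD
        · exact hPD z hz hzD
    obtain ⟨A, B, hAB, -, hB⟩ := seg_split hQ hsQ
    have hsub : ∀ z ∈ s :: B, z ∈ Q := fun z hz => by rw [hAB]; exact List.mem_append_right _ hz
    have hBQ : ∀ z ∈ B, z ∈ Q := fun z hz => hsub z (List.mem_cons_of_mem _ hz)
    have hnB : (s :: B).Nodup := by
      have := hn'.2.1
      rw [hAB] at this
      exact (List.nodup_append.1 this).2.1
    have hsB : s ∉ B := (List.nodup_cons.1 hnB).1
    have hus : u ≠ s := fun h => hsD (h ▸ hu)
    have hreach := h2 s hsH' x' (Finset.mem_erase.2 ⟨hsne.symm, hx'⟩) u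
      (Finset.mem_erase.2 ⟨hus, hD hu⟩)
    obtain ⟨S, s1, s2, s3, s4, s5⟩ := hreach.path (Finset.mem_erase.2 ⟨hsne.symm, hx'⟩)
    obtain ⟨S', r, k1, k2, k3, k4⟩ := first_hit (G := G) (fun z => z ∈ D ∨ z ∈ P ∨ z ∈ B) S x' u
      ⟨s2, s3, s4⟩ (Or.inl hu)
    have hS'n : S'.Nodup := s1.sublist k2.sublist
    have hS'H : ∀ z ∈ S', z ∈ H := fun z hz => (Finset.mem_erase.1 (s5 z (k2.subset hz))).2
    have hS's : s ∉ S' := fun h => (Finset.mem_erase.1 (s5 s (k2.subset h))).1 rfl
    by_cases hrP : r ∈ P
    · -- the new path runs into `P`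
      obtain ⟨A2, B2, hAB2, -, hB2⟩ := seg_split hP hrP
      have hsub2 : ∀ z ∈ r :: B2, z ∈ P := fun z hz => by
        rw [hAB2]; exact List.mem_append_right _ hz
      have hnB2 : (r :: B2).Nodup := by
        have := hn'.1
        rw [hAB2] at this
        exact (List.nodup_append.1 this).2.1
      refine ⟨s :: B, S' ++ B2, u', u, hB, seg_join k1 hB2, ?_, ?_, ?_, hu', hu, ?_, ?_⟩
      · rw [List.nodup_append]
        refine ⟨hnB, ?_, ?_⟩
        · rw [List.nodup_append]
          refine ⟨hS'n, (List.nodup_cons.1 hnB2).2, ?_⟩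
          intro a ha b hb hab
          subst hab
          have h1 := k4 a ha (Or.inr (Or.inl (hsub2 a (List.mem_cons_of_mem _ hb))))
          subst h1
          exact (List.nodup_cons.1 hnB2).1 hb
        · intro a ha b hb hab
          subst hab
          rcases List.mem_append.1 hb with hb | hb
          · rcases List.mem_cons.1 ha with rfl | ha
            · exact hS's hb
            · have h1 := k4 a hb (Or.inr (Or.inr ha))
              subst h1
              exact hdis _ hrP (hBQ _ ha)
          · exact hdis a (hsub2 a (List.mem_cons_of_mem _ hb)) (hsub a ha)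
      · intro z hz
        exact hQH z (hsub z hz)
      · intro z hz
        rcases List.mem_append.1 hz with hz | hz
        · exact hS'H z hz
        · exact hPH z (hsub2 z (List.mem_cons_of_mem _ hz))
      · intro z hz hzD
        exact hQD z (hsub z hz) hzD
      · intro z hz hzD
        rcases List.mem_append.1 hz with hz | hz
        · have h1 := k4 z hz (Or.inl hzD)
          subst h1
          exact hPD z hrP hzD
        · exact hPD z (hsub2 z (List.mem_cons_of_mem _ hz)) hzD
    by_cases hrB : r ∈ B
    · -- the new path runs into `B`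
      have hB' : r ∈ s :: B := List.mem_cons_of_mem _ hrB
      obtain ⟨A3, B3, hAB3, -, hB3⟩ := seg_split hB hB'
      have hsub3 : ∀ z ∈ r :: B3, z ∈ s :: B := fun z hz => by
        rw [hAB3]; exact List.mem_append_right _ hz
      have hnB3 : (r :: B3).Nodup := by
        have := hnB
        rw [hAB3] at this
        exact (List.nodup_append.1 this).2.1
      have hrs : r ≠ s := fun h => hsB (h ▸ hrB)
      have hsB3 : s ∉ B3 := by
        intro h
        rcases A3 with _ | ⟨a3, A3⟩
        · simp only [List.nil_append, List.cons.injEq] at hAB3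
          exact hrs hAB3.1.symm
        · simp only [List.cons_append, List.cons.injEq] at hAB3
          apply hsB
          rw [hAB3.2]
          simp [h]
      have hB3B : ∀ z ∈ B3, z ∈ B := by
        intro z hz
        rcases List.mem_cons.1 (hsub3 z (List.mem_cons_of_mem _ hz)) with rfl | h
        · exact absurd hz hsB3
        · exact h
      refine ⟨s :: P, S' ++ B3, u, u', (seg_single G s).append hP hadj, seg_join k1 hB3, ?_, ?_, ?_,
        hu, hu', ?_, ?_⟩
      · rw [List.nodup_append]
        refine ⟨List.nodup_cons.2 ⟨hsP, hn'.1⟩, ?_, ?_⟩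
        · rw [List.nodup_append]
          refine ⟨hS'n, (List.nodup_cons.1 hnB3).2, ?_⟩
          intro a ha b hb hab
          subst hab
          have h1 := k4 a ha (Or.inr (Or.inr (hB3B a hb)))
          subst h1
          exact (List.nodup_cons.1 hnB3).1 hb
        · intro a ha b hb hab
          subst hab
          rcases List.mem_append.1 hb with hb | hb
          · rcases List.mem_cons.1 ha with rfl | ha
            · exact hS's hb
            · have h1 := k4 a hb (Or.inr (Or.inl ha))
              subst h1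
              exact hrP ha
          · rcases List.mem_cons.1 ha with rfl | ha
            · exact hsB3 hb
            · exact hdis a ha (hBQ a (hB3B a hb))
      · intro z hz
        rcases List.mem_cons.1 hz with rfl | hz
        · exact hsH'
        · exact hPH z hz
      · intro z hz
        rcases List.mem_append.1 hz with hz | hz
        · exact hS'H z hz
        · exact hQH z (hBQ z (hB3B z hz))
      · intro z hz hzD
        rcases List.mem_cons.1 hz with rfl | hz
        · exact absurd hzD hsD
        · exact hPD z hz hzD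
      · intro z hz hzD
        rcases List.mem_append.1 hz with hz | hz
        · have h1 := k4 z hz (Or.inl hzD)
          subst h1
          exact hQD z (hBQ z hrB) hzD
        · exact hQD z (hBQ z (hB3B z hz)) hzD
    -- the new path runs into `D`
    have hrD : r ∈ D := by
      rcases k3 with h | h | h
      · exact h
      · exact absurd h hrP
      · exact absurd h hrB
    refine ⟨s :: B, S', u', r, hB, k1, ?_, ?_, hS'H, hu', hrD, ?_, ?_⟩
    · rw [List.nodup_append]
      refine ⟨hnB, hS'n, ?_⟩
      intro a ha b hb hab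
      subst hab
      rcases List.mem_cons.1 ha with rfl | ha
      · exact hS's hb
      · have h1 := k4 a hb (Or.inr (Or.inr ha))
        subst h1
        exact hrB ha
    · intro z hz
      exact hQH z (hsub z hz)
    · intro z hz hzD
      exact hQD z (hsub z hz) hzD
    · intro z hz hzD
      exact k4 z hz (Or.inl hzD)

/-- **Fan.** In a 2-connected set `H`, two different vertices are joined to two different vertices
of `D` by disjoint paths. -/
theorem fan {G : SimpleGraph V} {H D : Finset V} (h2 : Conn2 G H) (hD : D ⊆ H)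
    (hc : 2 ≤ D.card) {x x' : V} (hx : x ∈ H) (hx' : x' ∈ H) (hne : x ≠ x') : Fan G H D x x' := by
  obtain ⟨d, hd, hdx⟩ := Finset.exists_mem_ne (by omega : 1 < D.card) x'
  have hxe : x ∈ H.erase x' := Finset.mem_erase.2 ⟨hne, hx⟩
  have hr := h2 x' hx' x hxe d (Finset.mem_erase.2 ⟨hdx, hD hd⟩)
  obtain ⟨S, s1, s2, s3, s4, s5⟩ := hr.path hxe
  exact fan_aux h2 hD hc hx' S x d ⟨s2, s3, s4⟩ hd s5

/-- A path from `x` to `x'` of `H` with at least as many vertices as the paths inside `D`. -/
theorem through {G : SimpleGraph V} {H D : Finset V} (h2 : Conn2 G H) (hD : D ⊆ H)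
    (hc : 2 ≤ D.card) {n : ℕ} (hn : ∀ u ∈ D, ∀ u' ∈ D, u ≠ u' → ∃ M, Seg G M u u' ∧ M.Nodup ∧
      (∀ z ∈ M, z ∈ D) ∧ n ≤ M.length) {x x' : V} (hx : x ∈ H) (hx' : x' ∈ H) (hne : x ≠ x') :
    ∃ Q, Seg G Q x x' ∧ Q.Nodup ∧ (∀ z ∈ Q, z ∈ H) ∧ n ≤ Q.length := by
  obtain ⟨P, Q, u, u', hP, hQ, hnod, hPH, hQH, hu, hu', hPD, hQD⟩ := fan h2 hD hc hx hx' hne
  have hn' := List.nodup_append.1 hnod
  have huP : u ∈ P := List.mem_of_mem_getLast? (by rw [hP.lt]; rfl)
  have huQ : u' ∈ Q := List.mem_of_mem_getLast? (by rw [hQ.lt]; rfl)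
  have huu : u ≠ u' := hn'.2.2 u huP u' huQ
  obtain ⟨M, hM, hMn, hMD, hMl⟩ := hn u hu u' hu' huu
  obtain ⟨m, M, rfl⟩ : ∃ m M', M = m :: M' := by
    rcases M with _ | ⟨m, M⟩
    · have := hM.hd
      simp at this
    · exact ⟨m, M, rfl⟩
  have hm : m = u := by
    have := hM.hd
    simpa using this
  subst hm
  have hQr := hQ.rev
  obtain ⟨q, Q', hq⟩ : ∃ q Q', Q.reverse = q :: Q' := by
    rcases hQQ : Q.reverse with _ | ⟨q, Q'⟩
    · have := hQr.hd
      rw [hQQ] at this
      simp at this
    · exact ⟨q, Q', rfl⟩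
  rw [hq] at hQr
  have hqu : q = u' := by
    have := hQr.hd
    simpa using this
  subst hqu
  have hQmem : ∀ z, z ∈ q :: Q' ↔ z ∈ Q := by
    intro z
    rw [← hq, List.mem_reverse]
  have hQn : (q :: Q').Nodup := by
    rw [← hq]
    exact List.nodup_reverse.2 hn'.2.1
  have h1 := seg_join hP hM
  have h3 := seg_join h1 hQr
  refine ⟨(P ++ M) ++ Q', h3, ?_, ?_, ?_⟩
  · rw [List.nodup_append]
    refine ⟨?_, (List.nodup_cons.1 hQn).2, ?_⟩
    · rw [List.nodup_append]
      refine ⟨hn'.1, (List.nodup_cons.1 hMn).2, ?_⟩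
      intro a ha b hb hab
      subst hab
      have := hPD a ha (hMD a (List.mem_cons_of_mem _ hb))
      subst this
      exact (List.nodup_cons.1 hMn).1 hb
    · intro a ha b hb hab
      subst hab
      have hb' : a ∈ Q := (hQmem a).1 (List.mem_cons_of_mem _ hb)
      rcases List.mem_append.1 ha with ha | ha
      · exact hn'.2.2 a ha a hb' rfl
      · have := hQD a hb' (hMD a (List.mem_cons_of_mem _ ha))
        subst this
        exact (List.nodup_cons.1 hQn).1 hb
  · intro z hz
    rcases List.mem_append.1 hz with hz | hz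
    · rcases List.mem_append.1 hz with hz | hz
      · exact hPH z hz
      · exact hD (hMD z (List.mem_cons_of_mem _ hz))
    · exact hQH z ((hQmem z).1 (List.mem_cons_of_mem _ hz))
  · have e1 : 1 ≤ P.length := hP.pos
    rw [List.length_append, List.length_append]
    rw [List.length_cons] at hMl
    omega

/-- two vertices of a cycle are joined by the longer arc -/
theorem arc {G : SimpleGraph V} {c : List V} (hc : CycL G c) {y z : V} (hy : y ∈ c) (hz : z ∈ c)
    (hyz : y ≠ z) : ∃ M, Seg G M y z ∧ M.Nodup ∧ (∀ w ∈ M, w ∈ c) ∧ c.length + 2 ≤ 2 * M.length := by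
  obtain ⟨A, B, hr, hA, hB⟩ := open_two hc hy hz hyz
  have hnod : ((y :: A) ++ (z :: B)).Nodup := (hr.perm.nodup_iff).1 hc.1
  have hn' := List.nodup_append.1 hnod
  have hlen : c.length = (A.length + 1) + (B.length + 1) := by
    rw [hr.perm.length_eq, List.length_append, List.length_cons, List.length_cons]
  have hmem : ∀ w, w ∈ (y :: A) ++ (z :: B) → w ∈ c := fun w hw => hr.perm.mem_iff.2 hw
  rcases Nat.lt_or_ge A.length B.length with h | h
  · -- the arc `z B y`
    have hs : Seg G ((z :: B) ++ [y]) z y := hB.append (seg_single G y) (hc.prev_adj hy)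
    refine ⟨((z :: B) ++ [y]).reverse, hs.rev, ?_, ?_, ?_⟩
    · rw [List.nodup_reverse, List.nodup_append]
      refine ⟨hn'.2.1, by simp, ?_⟩
      intro a ha b hb hab
      simp at hb
      subst hab
      subst hb
      exact hn'.2.2 _ (by simp) _ ha rfl
    · intro w hw
      rw [List.mem_reverse, List.mem_append] at hw
      rcases hw with hw | hw
      · exact hmem w (List.mem_append_right _ hw)
      · simp at hw
        subst hw
        exact hy
    · rw [List.length_reverse, List.length_append, List.length_cons, List.length_singleton]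
      omega
  · have hs : Seg G ((y :: A) ++ [z]) y z := hA.append (seg_single G z) (hc.prev_adj hz)
    refine ⟨(y :: A) ++ [z], hs, ?_, ?_, ?_⟩
    · rw [List.nodup_append]
      refine ⟨hn'.1, by simp, ?_⟩
      intro a ha b hb hab
      simp at hb
      subst hab
      subst hb
      exact hn'.2.2 _ ha _ (by simp) rfl
    · intro w hw
      rcases List.mem_append.1 hw with hw | hw
      · exact hmem w (List.mem_append_left _ hw)
      · simp at hw
        subst hw
        exact hz
    · rw [List.length_append, List.length_cons, List.length_singleton]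
      omega

/-- **Long arc.** In a 2-connected set with a cycle `c`, any two vertices are joined by a path with
at least `c.length / 2 + 1` vertices. -/
theorem long_arc {G : SimpleGraph V} {H : Finset V} (h2 : Conn2 G H) {c : List V} (hc : CycL G c)
    (hcH : ∀ z ∈ c, z ∈ H) {x x' : V} (hx : x ∈ H) (hx' : x' ∈ H) (hne : x ≠ x') :
    ∃ Q, Seg G Q x x' ∧ Q.Nodup ∧ (∀ z ∈ Q, z ∈ H) ∧ c.length + 2 ≤ 2 * Q.length := by
  have hcard : c.toFinset.card = c.length := List.toFinset_card_of_nodup hc.1
  obtain ⟨Q, h1, h3, h4, h5⟩ := through (n := (c.length + 3) / 2) h2 (D := c.toFinset)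
    (fun z hz => hcH z (List.mem_toFinset.1 hz)) (by have := hc.2.1; omega)
    (fun u hu u' hu' huu => by
      obtain ⟨M, m1, m2, m3, m4⟩ := arc hc (List.mem_toFinset.1 hu) (List.mem_toFinset.1 hu') huu
      exact ⟨M, m1, m2, fun z hz => List.mem_toFinset.2 (m3 z hz), by omega⟩) hx hx' hne
  exact ⟨Q, h1, h3, h4, by omega⟩

end Pool.Agent.H37F
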