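import Pool.Agent.H62P.Pkg

/-!
# M1: a component of `G - c` with its unclean vertices made optional

`X` is a set of vertices of the component `Z = comp G L y`, each of which is the only neighbour in
`Z` of some hub. Then `(Z, (W ∩ Z) ∪ X)` is in the class, and the vertices of `X` are absorbed at
no cost.
-/

set_option autoImplicit false

namespace Pool.Agent.H37F

open List Pool.Agent.TF82 Pool.Agent.TFC Pool.Agent.TFB Pool.Agent.EG31
  Pool.Agent.H18C Pool.Agent.H62P

universe u

set_option linter.unusedSectionVars false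
set_option linter.unusedVariables false

variable {V : Type u} [DecidableEq V]

/-- components are connected -/
theorem comp_conn1 [Fintype V] (G : SimpleGraph V) (L : List (List V)) (y : V) :
    Conn1 G (comp G L y) := by
  have key : ∀ a b, a ∈ comp G L y → Reach G (unc L) a b → Reach G (comp G L y) a b ∧
      b ∈ comp G L y := by
    intro a b ha h
    induction h with
    | refl => exact ⟨Relation.ReflTransGen.refl, ha⟩
    | @tail b c hab hbc ih =>
      have hb := mem_comp.1 ih.2
      have hc : c ∈ comp G L y :=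
        mem_comp.2 ⟨hbc.2.1, Relation.ReflTransGen.tail hb.2 hbc⟩
      exact ⟨Relation.ReflTransGen.tail ih.1 ⟨ih.2, hc, hbc.2.2⟩, hc⟩
  intro a ha b hb
  have h1 := (mem_comp.1 ha).2
  have h2 := (mem_comp.1 hb).2
  exact (key a b ha (Relation.ReflTransGen.trans h1.symm h2)).1

/-- `x` is the only neighbour of some hub in the component -/
def Pend [Fintype V] (G : SimpleGraph V) (L : List (List V)) (y x : V) : Prop :=
  ∃ u ∈ att G L y, G.Adj u x ∧ ∀ z ∈ comp G L y, G.Adj u z → z = x

/-- every vertex of the component misses the pendant hubs of the other unclean vertices -/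
theorem pend_card [Fintype V] {G : SimpleGraph V} [DecidableRel G.Adj] {L : List (List V)}
    {y : V} {X : Finset V} (hX : ∀ x ∈ X, Pend G L y x) {v : V} (hv : v ∈ comp G L y) :
    (X.erase v).card ≤ ((att G L y).filter (fun w => ¬ G.Adj v w)).card := by
  classical
  choose! u hu using hX
  refine Finset.card_le_card_of_injOn u ?_ ?_
  · intro x hx
    have hx := Finset.mem_coe.1 hx
    obtain ⟨hxv, hxX⟩ := Finset.mem_erase.1 hx
    refine Finset.mem_coe.2 (Finset.mem_filter.2 ⟨(hu x hxX).1, ?_⟩)
    intro hadj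
    exact hxv ((hu x hxX).2.2 v hv hadj.symm).symm
  · intro x hx x' hx' he
    have hx := (Finset.mem_erase.1 (Finset.mem_coe.1 hx)).2
    have hx' := (Finset.mem_erase.1 (Finset.mem_coe.1 hx')).2
    have h1 := hu x hx
    have h2 := hu x' hx'
    rw [he] at h1
    have h3 : x ∈ comp G L y ∨ x ∉ comp G L y := em _
    -- the hub `u x'` sees some vertex of the component
    obtain ⟨hc, z, hz, hadj⟩ := mem_att.1 h2.1
    by_cases hy : y ∈ unc L
    · have hzc : z ∈ comp G L y := mem_comp.2 ⟨reach_unc hy hz, hz⟩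
      rw [← h1.2.2 z hzc hadj, ← h2.2.2 z hzc hadj]
    · exfalso
      have := (mem_comp.1 hv)
      exact hy (by
        have hr := this.2.symm
        exact reach_unc this.1 hr)

/-- surplus at a vertex of the component outside `W` -/
theorem sur_comp [Fintype V] {G : SimpleGraph V} [DecidableRel G.Adj] {W : Finset V}
    (hC : CW G Finset.univ W) {j : ℕ} {L : List (List V)} (hM : IsMax G j L) {y : V}
    (hy : y ∈ unc L) {X : Finset V} (hX : ∀ x ∈ X, Pend G L y x) {J : Finset V}
    (hJ : J ⊆ comp G L y \ (W ∩ comp G L y)) (hJi : G.IsIndepSet (J : Set V)) {v : V}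
    (hv : v ∈ J) : J.card + 1 + (W ∩ comp G L y).card + (X.erase v).card ≤
      dU G (comp G L y) v := by
  have hJc : ∀ x ∈ J, x ∈ comp G L y ∧ x ∉ W := by
    intro x hx
    have h1 := Finset.mem_sdiff.1 (hJ hx)
    rw [Finset.mem_inter] at h1
    exact ⟨h1.1, fun h => h1.2 ⟨h, h1.1⟩⟩
  have h1 := att_main_W hC hM hy J (Finset.disjoint_left.2 fun x hx hxW => (hJc x hx).2 hxW) hJi
    (fun x hx => (mem_comp.1 (hJc x hx).1).2) hv
  have h2 := pend_card (G := G) (L := L) (y := y) hX (hJc v hv).1
  rw [dU_comp (hJc v hv).1]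
  have h3 : (W ∩ comp G L y).card ≤ (W ∩ unc L).card := by
    apply Finset.card_le_card
    intro x hx
    have hx := Finset.mem_inter.1 hx
    exact Finset.mem_inter.2 ⟨hx.1, (mem_comp.1 hx.2).1⟩
  omega

/-- `(Z, (W ∩ Z) ∪ X)` is in the class of `CW` -/
theorem cw_comp [Fintype V] {G : SimpleGraph V} [DecidableRel G.Adj] {W : Finset V}
    (hC : CW G Finset.univ W) {j : ℕ} {L : List (List V)} (hM : IsMax G j L) {y : V}
    (hy : y ∈ unc L) {X : Finset V} (hX : ∀ x ∈ X, Pend G L y x) :
    CW G (comp G L y) ((W ∩ comp G L y) ∪ X) := by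
  intro J hJ hJi v hv
  have hJ' : J ⊆ comp G L y \ (W ∩ comp G L y) := by
    intro x hx
    have h1 := Finset.mem_sdiff.1 (hJ hx)
    rw [Finset.mem_union] at h1
    exact Finset.mem_sdiff.2 ⟨h1.1, fun h => h1.2 (Or.inl h)⟩
  have h1 := sur_comp hC hM hy hX hJ' hJi hv
  have hvX : v ∉ X := by
    have h1 := Finset.mem_sdiff.1 (hJ hv)
    rw [Finset.mem_union] at h1
    exact fun h => h1.2 (Or.inr h)
  rw [Finset.erase_eq_of_notMem hvX] at h1
  have h2 := Finset.card_union_le (W ∩ comp G L y) X
  omega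

/-- absorption of the unclean vertices -/
theorem absorb_comp [Fintype V] {G : SimpleGraph V} [DecidableRel G.Adj] {W : Finset V}
    (hC : CW G Finset.univ W) {j : ℕ} {L : List (List V)} (hM : IsMax G j L) {y : V}
    (hy : y ∈ unc L) {k : ℕ} : ∀ (n : ℕ) (X : Finset V), X.card = n → X ⊆ comp G L y →
    (∀ x ∈ X, Pend G L y x) → CovW G (comp G L y) ((W ∩ comp G L y) ∪ X) k →
    CovW G (comp G L y) (W ∩ comp G L y) k := by
  intro n
  induction n with
  | zero =>
    intro X hX _ _ h
    have : X = ∅ := Finset.card_eq_zero.1 hX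
    subst this
    simpa using h
  | succ n ih =>
    intro X hXn hXs hX h
    obtain ⟨x, hx⟩ : X.Nonempty := Finset.card_pos.1 (by omega)
    refine ih (X.erase x) (by rw [Finset.card_erase_of_mem hx]; omega)
      ((Finset.erase_subset _ _).trans hXs)
      (fun z hz => hX z (Finset.mem_of_mem_erase hz)) ?_
    by_cases hxW : x ∈ W
    · refine h.weaken (Finset.Subset.refl _) ?_
      intro z hz
      obtain ⟨hz1, hz2⟩ := Finset.mem_sdiff.1 hz
      refine Finset.mem_sdiff.2 ⟨hz1, fun hz3 => hz2 ?_⟩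
      rcases Finset.mem_union.1 hz3 with hz3 | hz3
      · exact Finset.mem_union_left _ hz3
      · by_cases hzx : z = x
        · subst hzx
          exact Finset.mem_union_left _ (Finset.mem_inter.2 ⟨hxW, hz1⟩)
        · exact Finset.mem_union_right _ (Finset.mem_erase.2 ⟨hzx, hz3⟩)
    have hWs : (W ∩ comp G L y) ∪ X.erase x ⊆ comp G L y := by
      intro z hz
      rcases Finset.mem_union.1 hz with hz | hz
      · exact (Finset.mem_inter.1 hz).2
      · exact hXs (Finset.mem_of_mem_erase hz)
    have hxm : x ∈ comp G L y \ ((W ∩ comp G L y) ∪ X.erase x) := by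
      refine Finset.mem_sdiff.2 ⟨hXs hx, ?_⟩
      rw [Finset.mem_union, Finset.mem_inter]
      rintro (h1 | h1)
      · exact hxW h1.1
      · exact (Finset.mem_erase.1 h1).1 rfl
    refine absorb hWs hxm ?_ ?_
    · intro I hI hIi hxI
      have hI' : I ⊆ comp G L y \ (W ∩ comp G L y) := by
        intro z hz
        have h1 := Finset.mem_sdiff.1 (hI hz)
        rw [Finset.mem_union] at h1
        exact Finset.mem_sdiff.2 ⟨h1.1, fun h => h1.2 (Or.inl h)⟩
      have h1 := sur_comp hC hM hy hX hI' hIi hxI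
      have h2 := Finset.card_union_le (W ∩ comp G L y) (X.erase x)
      omega
    · obtain ⟨M, h1, h2, h3, h4⟩ := h
      refine ⟨M, h1, h2, h3, ?_⟩
      intro z hz hzx
      refine h4 z ?_
      obtain ⟨hz1, hz2⟩ := Finset.mem_sdiff.1 hz
      refine Finset.mem_sdiff.2 ⟨hz1, fun hz3 => hz2 ?_⟩
      rcases Finset.mem_union.1 hz3 with hz3 | hz3
      · exact Finset.mem_union_left _ hz3
      · exact Finset.mem_union_right _ (Finset.mem_erase.2 ⟨hzx, hz3⟩)

/-- covers with and without the unclean vertices -/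
theorem cov_comp_iff [Fintype V] {G : SimpleGraph V} [DecidableRel G.Adj] {W : Finset V}
    (hC : CW G Finset.univ W) {j : ℕ} {L : List (List V)} (hM : IsMax G j L) {y : V}
    (hy : y ∈ unc L) {X : Finset V} (hXs : X ⊆ comp G L y) (hX : ∀ x ∈ X, Pend G L y x) (k : ℕ) :
    CovW G (comp G L y) ((W ∩ comp G L y) ∪ X) k ↔
      CovW G (comp G L y) (W ∩ comp G L y) k := by
  constructor
  · exact absorb_comp hC hM hy X.card X rfl hXs hX
  · intro h
    refine h.weaken (Finset.Subset.refl _) ?_
    intro z hz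
    obtain ⟨hz1, hz2⟩ := Finset.mem_sdiff.1 hz
    exact Finset.mem_sdiff.2 ⟨hz1, fun hz3 => hz2 (Finset.mem_union_left _ hz3)⟩

theorem minCov_comp_iff [Fintype V] {G : SimpleGraph V} [DecidableRel G.Adj] {W : Finset V}
    (hC : CW G Finset.univ W) {j : ℕ} {L : List (List V)} (hM : IsMax G j L) {y : V}
    (hy : y ∈ unc L) {X : Finset V} (hXs : X ⊆ comp G L y) (hX : ∀ x ∈ X, Pend G L y x) (f : ℕ) :
    MinCov G (comp G L y) ((W ∩ comp G L y) ∪ X) f ↔
      MinCov G (comp G L y) (W ∩ comp G L y) f := by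
  unfold MinCov
  rw [cov_comp_iff hC hM hy hXs hX f]
  constructor
  · rintro ⟨h1, h2⟩
    exact ⟨h1, fun k hk h => h2 k hk ((cov_comp_iff hC hM hy hXs hX k).2 h)⟩
  · rintro ⟨h1, h2⟩
    exact ⟨h1, fun k hk h => h2 k hk ((cov_comp_iff hC hM hy hXs hX k).1 h)⟩

/-- some vertex is neither optional nor unclean -/
theorem ne_comp [Fintype V] {G : SimpleGraph V} [DecidableRel G.Adj] {W : Finset V}
    (hC : CW G Finset.univ W) {j : ℕ} {L : List (List V)} (hM : IsMax G j L) {y : V}
    (hy : y ∈ unc L) {X : Finset V} (hXs : X ⊆ comp G L y) (hX : ∀ x ∈ X, Pend G L y x)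
    (hne : (comp G L y \ W).Nonempty) :
    (comp G L y \ ((W ∩ comp G L y) ∪ X)).Nonempty := by
  obtain ⟨v, hv⟩ := hne
  obtain ⟨hv1, hv2⟩ := Finset.mem_sdiff.1 hv
  have h1 := sur_comp hC hM hy hX (J := {v}) (by
    intro z hz
    rw [Finset.mem_singleton] at hz
    subst hz
    exact Finset.mem_sdiff.2 ⟨hv1, fun h => hv2 (Finset.mem_inter.1 h).1⟩)
    (by simp) (Finset.mem_singleton_self v)
  have h2 : dU G (comp G L y) v + 1 ≤ (comp G L y).card := by
    have h3 : ((comp G L y).filter (fun w => G.Adj v w)) ⊆ (comp G L y).erase v := by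
      intro w hw
      rw [Finset.mem_filter] at hw
      exact Finset.mem_erase.2 ⟨fun he => G.loopless.irrefl v (he ▸ hw.2), hw.1⟩
    have h4 := Finset.card_le_card h3
    rw [Finset.card_erase_of_mem hv1] at h4
    have h5 : 1 ≤ (comp G L y).card := Finset.card_pos.2 ⟨v, hv1⟩
    unfold dU
    omega
  rw [Finset.card_singleton] at h1
  by_contra hcon
  rw [Finset.not_nonempty_iff_eq_empty, Finset.sdiff_eq_empty_iff_subset] at hcon
  have h6 := Finset.card_le_card hcon
  have h7 := Finset.card_union_le (W ∩ comp G L y) X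
  have h8 : X.card ≤ (X.erase v).card + 1 := by
    by_cases hvX : v ∈ X
    · rw [Finset.card_erase_of_mem hvX]
      omega
    · rw [Finset.erase_eq_of_notMem hvX]
      omega
  omega

/-- **M1.** The component with optional unclean vertices is in the class with surplus `0`. -/
theorem kb_comp [Fintype V] {G : SimpleGraph V} [DecidableRel G.Adj] {W : Finset V}
    (hC : CW G Finset.univ W) {j : ℕ} {L : List (List V)} (hM : IsMax G j L) {y : V}
    (hy : y ∈ unc L) {X : Finset V} (hXs : X ⊆ comp G L y) (hX : ∀ x ∈ X, Pend G L y x)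
    (hne : (comp G L y \ W).Nonempty) : Kb G (comp G L y) ((W ∩ comp G L y) ∪ X) 0 :=
  Kb.zero (Finset.union_subset Finset.inter_subset_right hXs) (comp_conn1 G L y)
    (ne_comp hC hM hy hXs hX hne) (cw_comp hC hM hy hX)

end Pool.Agent.H37F
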